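import Pool.Agent.T9h29.HC.Main

set_option autoImplicit false

/-! Project HC (helper29): the exceptional shifts. -/

namespace Pool.Agent.T9h29.HC

open Complex Filter Topology MeasureTheory Set
open Pool.Agent.R304.SG (Z phase phase_cont Z_cont Z_re)

noncomputable section

lemma cheb {f : ℝ → ℝ} (hf : Continuous f) (h0 : ∀ c, 0 ≤ f c) {U B V : ℝ} (hU : 0 ≤ U) (hV : 0 < V)
    (hB : ∫ c in (0 : ℝ)..U, f c ≤ B) :
    volume {c | c ∈ Icc 0 U ∧ V ≤ f c} ≤ ENNReal.ofReal (B / V) := by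
  have h1 : ENNReal.ofReal V * volume {c | c ∈ Icc 0 U ∧ V ≤ f c} ≤ ∫⁻ c in Icc 0 U, ENNReal.ofReal (f c) := by
    have h2 := mul_meas_ge_le_lintegral (μ := volume.restrict (Icc 0 U))
      (f := fun c => ENNReal.ofReal (f c)) (by fun_prop) (ENNReal.ofReal V)
    refine le_trans (le_of_eq ?_) h2
    have h3 : {c | c ∈ Icc 0 U ∧ V ≤ f c} = {c | ENNReal.ofReal V ≤ ENNReal.ofReal (f c)} ∩ Icc 0 U := by
      ext c
      constructor
      · rintro ⟨k1, k2⟩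
        exact ⟨ENNReal.ofReal_le_ofReal k2, k1⟩
      · rintro ⟨k1, k2⟩
        exact ⟨k2, (ENNReal.ofReal_le_ofReal_iff (h0 c)).1 k1⟩
    rw [h3, ← Measure.restrict_apply' measurableSet_Icc]
  have h4 : ∫⁻ c in Icc 0 U, ENNReal.ofReal (f c) ≤ ENNReal.ofReal B := by
    rw [← ofReal_integral_eq_lintegral_ofReal (hf.continuousOn.integrableOn_compact isCompact_Icc)
      (Eventually.of_forall h0)]
    refine ENNReal.ofReal_le_ofReal ?_
    rw [integral_Icc_eq_integral_Ioc, ← intervalIntegral.integral_of_le hU]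
    exact hB
  have hV0 : ENNReal.ofReal V ≠ 0 := by
    rw [Ne, ENNReal.ofReal_eq_zero, not_le]; exact hV
  rw [ENNReal.ofReal_div_of_pos hV, ENNReal.le_div_iff_mul_le (Or.inl hV0) (Or.inl ENNReal.ofReal_ne_top), mul_comm]
  exact h1.trans h4

theorem exc (h : S_MAIN2) : ∀ θ : ℝ, 0 < θ → θ ≤ 1 / 4 → ∃ δ T₀ : ℝ, 0 < δ ∧ ∀ T : ℝ, T₀ ≤ T →
    volume {c | c ∈ Icc 0 (T ^ θ) ∧ T ^ (1 - δ) < ‖∫ t in (0 : ℝ)..T, Z t * Z (t + c) ^ 2‖} ≤
      ENNReal.ofReal (T ^ (θ - δ)) := by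
  obtain ⟨C, A, hC, h⟩ := h
  intro θ hθ hθ4
  obtain ⟨δ, hδ⟩ : ∃ δ : ℝ, δ = min θ (1 / 16) / 4 := ⟨_, rfl⟩
  have hm : 0 < min θ (1 / 16) := lt_min hθ (by norm_num)
  have hδ0 : 0 < δ := by rw [hδ]; linarith
  have hδ1 : 4 * δ ≤ θ := by rw [hδ]; linarith [min_le_left θ (1 / 16)]
  have hδ2 : 4 * δ ≤ 1 / 16 := by rw [hδ]; linarith [min_le_right θ (1 / 16)]
  -- logarithms are small
  have hlog : ∀ᶠ T : ℝ in atTop, 2 * C * Real.log T ^ A ≤ T ^ δ := by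
    have h1 := isLittleO_log_rpow_rpow_atTop (s := δ) (A : ℝ) hδ0
    have h2 := h1.bound (c := (2 * C)⁻¹) (by positivity)
    filter_upwards [h2, eventually_ge_atTop (3 : ℝ)] with T h3 hT
    have hT0 : 0 < T := by linarith
    have hl : 0 ≤ Real.log T := Real.log_nonneg (by linarith)
    rw [Real.norm_of_nonneg (by positivity), Real.norm_of_nonneg (by positivity), Real.rpow_natCast] at h3
    calc 2 * C * Real.log T ^ A ≤ 2 * C * ((2 * C)⁻¹ * T ^ δ) := by gcongr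
      _ = T ^ δ := by field_simp
  obtain ⟨T₁, hT₁⟩ := eventually_atTop.1 hlog
  refine ⟨δ, max T₁ 3, hδ0, fun T hT => ?_⟩
  have hT3 : 3 ≤ T := (le_max_right _ _).trans hT
  have hT0 : (0 : ℝ) < T := by linarith
  have hT1 : (1 : ℝ) ≤ T := by linarith
  have hl := hT₁ T ((le_max_left _ _).trans hT)
  have hL0 : 0 ≤ Real.log T := Real.log_nonneg hT1
  have hU1 : 1 ≤ T ^ θ := Real.one_le_rpow hT1 hθ.le
  have hb := h T (T ^ θ) hT3 hU1 (Real.rpow_le_rpow_of_exponent_le hT1 hθ4)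
  have hZc := Z_cont
  have cI : Continuous fun c : ℝ => ‖∫ t in (0 : ℝ)..T, Z t * Z (t + c) ^ 2‖ ^ 2 := by
    refine Continuous.pow (Continuous.norm ?_) 2
    apply intervalIntegral.continuous_parametric_intervalIntegral_of_continuous'
    have : Continuous fun q : ℝ × ℝ => Z q.2 * Z (q.2 + q.1) ^ 2 :=
      (hZc.comp continuous_snd).mul ((hZc.comp (continuous_snd.add continuous_fst)).pow 2)
    exact this
  have hV : 0 < (T ^ (1 - δ)) ^ 2 := by positivity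
  have hc := cheb cI (fun c => by positivity) (by linarith : (0 : ℝ) ≤ T ^ θ) hV hb
  have hsub : {c | c ∈ Icc 0 (T ^ θ) ∧ T ^ (1 - δ) < ‖∫ t in (0 : ℝ)..T, Z t * Z (t + c) ^ 2‖} ⊆
      {c | c ∈ Icc 0 (T ^ θ) ∧ (T ^ (1 - δ)) ^ 2 ≤ ‖∫ t in (0 : ℝ)..T, Z t * Z (t + c) ^ 2‖ ^ 2} := by
    intro c hc
    refine ⟨hc.1, ?_⟩
    have := hc.2.le
    gcongr
  refine (measure_mono hsub).trans (hc.trans (ENNReal.ofReal_le_ofReal ?_))
  rw [div_le_iff₀ hV]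
  have e0 : (T ^ (1 - δ)) ^ 2 = T ^ (2 - 2 * δ) := by
    rw [← Real.rpow_natCast, ← Real.rpow_mul hT0.le]
    congr 1
    push_cast
    ring
  have e1 : T ^ 2 = T ^ (2 : ℝ) := by norm_cast
  have e2 : T ^ 2 * (1 + T ^ θ * T ^ (-(1 / 16) : ℝ)) ≤ 2 * T ^ (2 + θ - 4 * δ) := by
    rw [← Real.rpow_add hT0, mul_add, mul_one, e1, ← Real.rpow_add hT0]
    have f1 : T ^ (2 : ℝ) ≤ T ^ (2 + θ - 4 * δ) := Real.rpow_le_rpow_of_exponent_le hT1 (by linarith)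
    have f2 : T ^ (2 + (θ + -(1 / 16) : ℝ)) ≤ T ^ (2 + θ - 4 * δ) :=
      Real.rpow_le_rpow_of_exponent_le hT1 (by linarith)
    linarith
  rw [e0]
  calc C * (T ^ 2 * (1 + T ^ θ * T ^ (-(1 / 16) : ℝ))) * Real.log T ^ A
      ≤ C * (2 * T ^ (2 + θ - 4 * δ)) * Real.log T ^ A := by gcongr
    _ = T ^ (2 + θ - 4 * δ) * (2 * C * Real.log T ^ A) := by ring
    _ ≤ T ^ (2 + θ - 4 * δ) * T ^ δ := by gcongr
    _ = T ^ (θ - δ) * T ^ (2 - 2 * δ) := by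
        rw [← Real.rpow_add hT0, ← Real.rpow_add hT0]
        congr 1
        ring

end

end Pool.Agent.T9h29.HC
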