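import Pool.Agent.T9h29.HC.Spec3
import Pool.Agent.T9h29.HC.Exc

set_option autoImplicit false

/-! Project HC (helper29): the exceptional shifts, third round. -/

namespace Pool.Agent.T9h29.HC

open Complex Filter Topology MeasureTheory Set
open Pool.Agent.R304.SG (Z Z_cont)

noncomputable section

theorem exc3 (h : S_MAIN5) : ∀ η ε : ℝ, 0 < ε → ∃ T₀ : ℝ, ∀ T : ℝ, T₀ ≤ T →
    volume {c | c ∈ Icc 0 (T ^ (1 / 2 : ℝ)) ∧ T ^ (1 - η) < ‖∫ t in (0 : ℝ)..T, Z t * Z (t + c) ^ 2‖} ≤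
      ENNReal.ofReal (T ^ (2 * η + ε)) := by
  obtain ⟨C, A, hC, h⟩ := h
  intro η ε hε
  have hlog : ∀ᶠ T : ℝ in atTop, C * Real.log T ^ A ≤ T ^ ε := by
    have h1 := isLittleO_log_rpow_rpow_atTop (s := ε) (A : ℝ) hε
    have h2 := h1.bound (c := C⁻¹) (by positivity)
    filter_upwards [h2, eventually_ge_atTop (3 : ℝ)] with T h3 hT
    have hT0 : 0 < T := by linarith
    have hl : 0 ≤ Real.log T := Real.log_nonneg (by linarith)
    rw [Real.norm_of_nonneg (by positivity), Real.norm_of_nonneg (by positivity), Real.rpow_natCast] at h3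
    calc C * Real.log T ^ A ≤ C * (C⁻¹ * T ^ ε) := by gcongr
      _ = T ^ ε := by field_simp
  obtain ⟨T₁, hT₁⟩ := eventually_atTop.1 hlog
  refine ⟨max T₁ 3, fun T hT => ?_⟩
  have hT3 : 3 ≤ T := (le_max_right _ _).trans hT
  have hT0 : (0 : ℝ) < T := by linarith
  have hT1 : (1 : ℝ) ≤ T := by linarith
  have hl := hT₁ T ((le_max_left _ _).trans hT)
  have hU1 : 1 ≤ T ^ (1 / 2 : ℝ) := Real.one_le_rpow hT1 (by norm_num)
  have hb := h T (T ^ (1 / 2 : ℝ)) hT3 hU1 le_rfl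
  have hZc := Z_cont
  have cI : Continuous fun c : ℝ => ‖∫ t in (0 : ℝ)..T, Z t * Z (t + c) ^ 2‖ ^ 2 := by
    refine Continuous.pow (Continuous.norm ?_) 2
    apply intervalIntegral.continuous_parametric_intervalIntegral_of_continuous'
    have : Continuous fun q : ℝ × ℝ => Z q.2 * Z (q.2 + q.1) ^ 2 :=
      (hZc.comp continuous_snd).mul ((hZc.comp (continuous_snd.add continuous_fst)).pow 2)
    exact this
  have hV : 0 < (T ^ (1 - η)) ^ 2 := by positivity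
  have hc := cheb cI (fun c => by positivity) (by linarith : (0 : ℝ) ≤ T ^ (1 / 2 : ℝ)) hV hb
  have hsub : {c | c ∈ Icc 0 (T ^ (1 / 2 : ℝ)) ∧ T ^ (1 - η) < ‖∫ t in (0 : ℝ)..T, Z t * Z (t + c) ^ 2‖} ⊆
      {c | c ∈ Icc 0 (T ^ (1 / 2 : ℝ)) ∧ (T ^ (1 - η)) ^ 2 ≤ ‖∫ t in (0 : ℝ)..T, Z t * Z (t + c) ^ 2‖ ^ 2} := by
    intro c hc
    refine ⟨hc.1, ?_⟩
    have := hc.2.le
    gcongr
  refine (measure_mono hsub).trans (hc.trans (ENNReal.ofReal_le_ofReal ?_))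
  rw [div_le_iff₀ hV]
  have e0 : (T ^ (1 - η)) ^ 2 = T ^ (2 - 2 * η) := by
    rw [← Real.rpow_natCast, ← Real.rpow_mul hT0.le]
    congr 1
    push_cast
    ring
  have e1 : T ^ 2 = T ^ (2 : ℝ) := by norm_cast
  rw [e0]
  calc C * T ^ 2 * Real.log T ^ A = T ^ 2 * (C * Real.log T ^ A) := by ring
    _ ≤ T ^ 2 * T ^ ε := by gcongr
    _ = T ^ (2 * η + ε) * T ^ (2 - 2 * η) := by
        rw [e1, ← Real.rpow_add hT0, ← Real.rpow_add hT0]
        congr 1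
        ring

end

end Pool.Agent.T9h29.HC
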