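import Pool.Agent.T9h29.HC.Spec
import Pool.Agent.Helper276.VdC

set_option autoImplicit false

/-! Project HC (helper29): the oscillating integrals. -/

namespace Pool.Agent.T9h29.HC

open Complex Filter Topology MeasureTheory Set
open Pool.Agent.R304.GR (vt psi vt_cont exp_vt vt_deriv psi_bound)

noncomputable section

theorem tj (h : S_TH) : S_J := by
  obtain ⟨c, hc, q, hqc, hq⟩ := h
  obtain ⟨C1, hC1, hpsi⟩ := psi_bound
  refine ⟨8 / √c + C1 + 5, by positivity, fun a x T μ ha hax hxT => ?_⟩
  have hT0 : 0 < T := by linarith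
  have d1 : ∀ y ∈ Icc a x, HasDerivAt (fun t : ℝ => vt t - μ * t) (psi y - μ) y := by
    intro y _
    have h1 : HasDerivAt (fun t : ℝ => μ * t) μ y := by
      simpa using (hasDerivAt_id y).const_mul μ
    exact (vt_deriv y).sub h1
  have d2 : ∀ y ∈ Icc a x, HasDerivAt (fun t : ℝ => psi t - μ) (q y) y := by
    intro y hy
    exact ((hq y (by linarith [hy.1])).1).sub_const μ
  have d3 : ContinuousOn q (Icc a x) := hqc.mono fun y hy => by
    have := hy.1
    exact mem_Ici.2 (by linarith)
  have d4 : ∀ y ∈ Icc a x, c / T ≤ q y := by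
    intro y hy
    have hy0 : 0 < y := by linarith [hy.1]
    refine le_trans ?_ (hq y (by linarith [hy.1])).2
    have : y ≤ T := hy.2.trans hxT
    gcongr
  have hm : 0 < c / T := by positivity
  constructor
  · refine (Pool.Agent.Helper276.VdC.second_test_pos (ψ := fun t => vt t - μ * t) (ψ1 := fun t => psi t - μ)
      (ψ2 := q) hax hm d1 d2 d3 d4).trans ?_
    have hs : 0 < √c := Real.sqrt_pos.2 hc
    have hsT : 0 < √T := Real.sqrt_pos.2 hT0
    rw [Real.sqrt_div hc.le]
    calc 8 / (√c / √T) = 8 / √c * √T := by field_simp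
      _ ≤ (8 / √c + C1 + 5) * √T := by
          gcongr
          linarith
  · intro hμ
    have hs : 0 < 8 / √c := div_pos (by norm_num) (Real.sqrt_pos.2 hc)
    refine (Pool.Agent.Helper276.VdC.first_test (ψ := fun t => vt t - μ * t) (ψ1 := fun t => psi t - μ)
      (ψ2 := q) (l := 1) hax one_pos d1 d2 d3 (fun y hy => hm.le.trans (d4 y hy)) ?_).trans ?_
    · intro y hy
      have hy1 : 1 ≤ y := by linarith [hy.1]
      have h1 := (abs_le.1 (hpsi y hy1)).2
      have h2 : Real.log y ≤ Real.log T := Real.log_le_log (by linarith) (hy.2.trans hxT)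
      have h3 : psi y - μ ≤ -1 := by linarith
      rw [abs_of_neg (by linarith)]
      linarith
    · linarith

end

end Pool.Agent.T9h29.HC
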