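import Pool.Agent.T9h29.HC.Tm
import Pool.Agent.T9h29.HC.Exc
import Pool.Agent.T9h29.HC.J
import Pool.Agent.T9h31.HC.Th
import Pool.Agent.T9h41.HC.Log
import Pool.Agent.T9h64.HC.Model
import Pool.Agent.T9h22.HC.Small

set_option autoImplicit false

/-! Project HC (helper29): the final theorem. -/

namespace Pool.Agent.T9h29.HC

open Complex Filter Topology MeasureTheory Set
open Pool.Agent.R304.SG (Z)

noncomputable section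

theorem fin :
    (∃ (C : ℝ) (A : ℕ), ∀ T U : ℝ, 3 ≤ T → 1 ≤ U → U ≤ T ^ (1 / 4 : ℝ) →
      ∫ c in (0 : ℝ)..U, ‖∫ t in (0 : ℝ)..T, Z t * Z (t + c) ^ 2‖ ^ 2 ≤
        C * (T ^ 2 * (1 + U * T ^ (-(1 / 16) : ℝ))) * Real.log T ^ A) ∧
    ∀ θ : ℝ, 0 < θ → θ ≤ 1 / 4 → ∃ δ T₀ : ℝ, 0 < δ ∧ ∀ T : ℝ, T₀ ≤ T →
      volume {c | c ∈ Icc 0 (T ^ θ) ∧ T ^ (1 - δ) < ‖∫ t in (0 : ℝ)..T, Z t * Z (t + c) ^ 2‖} ≤
        ENNReal.ofReal (T ^ (θ - δ)) := by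
  have hm := main (Pool.Agent.T9h64.HC.model (Pool.Agent.T9h41.HC.log (tm (tj Pool.Agent.T9h31.HC.th))))
    Pool.Agent.T9h22.HC.small
  refine ⟨?_, exc hm⟩
  obtain ⟨C, A, -, h⟩ := hm
  exact ⟨C, A, h⟩

end

end Pool.Agent.T9h29.HC
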