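import Pool.Agent.T9h29.HC.Spec2

set_option autoImplicit false

/-! Project HC (helper29): assembly of the second round. -/

namespace Pool.Agent.T9h29.HC

open Complex Filter Topology MeasureTheory Set
open Pool.Agent.R304.SG (Z Z_cont)

noncomputable section

lemma tel {g : ℝ → ℂ} (hg : Continuous g) (T : ℝ) (K : ℕ) : ∫ t in (0 : ℝ)..T, g t =
    (∫ t in (0 : ℝ)..(T / 2 ^ K), g t) + ∑ k ∈ Finset.range K, ∫ t in (T / 2 ^ k / 2)..(T / 2 ^ k), g t := by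
  induction K with
  | zero => simp
  | succ K ih =>
    rw [Finset.sum_range_succ, ih]
    have e : T / 2 ^ (K + 1) = T / 2 ^ K / 2 := by rw [pow_succ, div_div]
    rw [e]
    have h1 := intervalIntegral.integral_add_adjacent_intervals (μ := volume) (f := g) (a := 0) (b := T / 2 ^ K / 2)
      (c := T / 2 ^ K) (hg.intervalIntegrable _ _) (hg.intervalIntegrable _ _)
    rw [← h1]
    ring

lemma log3 {T : ℝ} (hT : 3 ≤ T) : 1 ≤ Real.log T := Pool.Agent.N879.PZ.Keraux.log_ge hT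

theorem main3 (hB : S_BLK) (hS : S_SM2) : S_MAIN3 := by
  obtain ⟨CB, AB, hCB, hB⟩ := hB
  obtain ⟨CS, AS, hCS, hS⟩ := hS
  refine ⟨64 * CS + 96 * CB, AS + AB + 2, by positivity, fun T U hT hU1 hU => ?_⟩
  have hT0 : (0 : ℝ) < T := by linarith
  have hT1 : (1 : ℝ) ≤ T := by linarith
  have hL1 : 1 ≤ Real.log T := log3 hT
  obtain ⟨L, hL⟩ : ∃ L : ℝ, L = Real.log T := ⟨_, rfl⟩
  rw [← hL] at hL1 ⊢
  have hL0 : 0 ≤ L := by linarith
  obtain ⟨r, hr⟩ : ∃ r : ℝ, r = T ^ (1 / 3 : ℝ) := ⟨_, rfl⟩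
  have hr0 : 0 < r := by rw [hr]; exact Real.rpow_pos_of_pos hT0 _
  have hr1 : 1 ≤ r := by rw [hr]; exact Real.one_le_rpow hT1 (by norm_num)
  have hr3 : r ^ 3 = T := by
    rw [hr, ← Real.rpow_natCast, ← Real.rpow_mul hT0.le]
    norm_num
  rw [← hr] at hU
  have hU0 : 0 ≤ U := by linarith
  have hrT : r ≤ T := by rw [← hr3]; nlinarith [sq_nonneg (r - 1), mul_nonneg hr0.le (sq_nonneg (r - 1))]
  have hP1 : L ^ AS ≤ L ^ (AS + AB + 2) := pow_le_pow_right₀ hL1 (by omega)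
  rcases lt_or_ge T 64 with h64 | h64
  · -- small T
    have h1 := hS T U hT hU1 (hU.trans hrT)
    rw [← hL] at h1
    refine h1.trans ?_
    calc CS * T ^ 3 * L ^ AS = CS * T ^ 2 * L ^ AS * T := by ring
      _ ≤ CS * T ^ 2 * L ^ (AS + AB + 2) * 64 := by gcongr
      _ = 64 * CS * T ^ 2 * L ^ (AS + AB + 2) := by ring
      _ ≤ _ := by
          gcongr
          linarith
  -- large T
  have hr4 : 4 ≤ r := by
    by_contra hc
    rw [not_le] at hc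
    have : r ^ 3 < 4 ^ 3 := pow_lt_pow_left₀ hc hr0.le (by norm_num)
    rw [hr3] at this
    norm_num at this
    linarith
  obtain ⟨m, hm⟩ : ∃ m : ℕ, m = ⌈r⌉₊ := ⟨_, rfl⟩
  have hm1 : r ≤ m := by rw [hm]; exact Nat.le_ceil r
  have hm2 : (m : ℝ) ≤ 2 * r := by
    have := Nat.ceil_lt_add_one hr0.le
    rw [← hm] at this
    linarith
  have hm4 : 4 ≤ m := by exact_mod_cast hr4.trans hm1
  obtain ⟨K, hK⟩ : ∃ K : ℕ, K = Nat.clog 2 m := ⟨_, rfl⟩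
  have hK1 : m ≤ 2 ^ K := by rw [hK]; exact Nat.le_pow_clog (by norm_num) m
  have hK2 : 2 ^ (K - 1) < m := by
    have := Nat.pow_pred_clog_lt_self (b := 2) (by norm_num) (x := m) (by omega)
    rw [← hK] at this
    simpa using this
  have hKpos : 1 ≤ K := by
    by_contra hc
    have : K = 0 := by omega
    rw [this] at hK1
    simp at hK1
    omega
  have hK1r : r ≤ 2 ^ K := hm1.trans (by exact_mod_cast hK1)
  have hK2r : (2 : ℝ) ^ (K - 1) ≤ 2 * r := le_trans (by exact_mod_cast hK2.le) hm2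
  have hK3r : (2 : ℝ) ^ K ≤ 4 * r := by
    have e : (2 : ℝ) ^ K = 2 * 2 ^ (K - 1) := by
      obtain ⟨j, hj⟩ : ∃ j, K = j + 1 := ⟨K - 1, by omega⟩
      rw [hj, pow_succ]
      simp
      ring
    rw [e]
    linarith
  have hKL : (K : ℝ) ≤ 4 * L := by
    have h1 : (2 : ℝ) ^ K ≤ T ^ 2 := by
      refine hK3r.trans ?_
      rw [← hr3]
      calc 4 * r ≤ r * r := by nlinarith
        _ = r ^ 2 := by ring
        _ ≤ (r ^ 3) ^ 2 := by
            rw [← pow_mul]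
            exact pow_le_pow_right₀ hr1 (by norm_num)
    have h2 : K * Real.log 2 ≤ 2 * L := by
      have h3 := Real.log_le_log (by positivity) h1
      rw [Real.log_pow, Real.log_pow] at h3
      rw [hL]
      exact_mod_cast h3
    have h3 : (1 / 2 : ℝ) ≤ Real.log 2 := by
      have := Real.log_two_gt_d9
      linarith
    have h4 : (0 : ℝ) ≤ K := Nat.cast_nonneg K
    nlinarith
  -- the pieces
  have hZc := Z_cont
  have hgc : ∀ c : ℝ, Continuous fun t : ℝ => Z t * Z (t + c) ^ 2 := fun c =>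
    hZc.mul ((hZc.comp (continuous_id.add continuous_const)).pow 2)
  have cI : ∀ x y : ℝ, Continuous fun c : ℝ => ∫ t in x..y, Z t * Z (t + c) ^ 2 := by
    intro x y
    apply intervalIntegral.continuous_parametric_intervalIntegral_of_continuous'
    have : Continuous fun q : ℝ × ℝ => Z q.2 * Z (q.2 + q.1) ^ 2 :=
      (hZc.comp continuous_snd).mul ((hZc.comp (continuous_snd.add continuous_fst)).pow 2)
    exact this
  obtain ⟨a, ha⟩ : ∃ a : ℝ, a = T / 2 ^ K := ⟨_, rfl⟩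
  have h2K : (0 : ℝ) < 2 ^ K := by positivity
  have ha2 : a ≤ r ^ 2 := by
    rw [ha, div_le_iff₀ h2K, ← hr3]
    calc r ^ 3 = r ^ 2 * r := by ring
      _ ≤ r ^ 2 * 2 ^ K := by gcongr
  have ha1 : r ≤ a := by
    rw [ha, le_div_iff₀ h2K, ← hr3]
    calc r * 2 ^ K ≤ r * (4 * r) := by gcongr
      _ ≤ r ^ 3 := by nlinarith [mul_nonneg (mul_nonneg hr0.le hr0.le) (by linarith : (0:ℝ) ≤ r - 4)]
  have haT : a ≤ T := ha2.trans (by rw [← hr3]; exact pow_le_pow_right₀ hr1 (by norm_num))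
  have hs := hS a U (by linarith) hU1 (hU.trans ha1)
  have hs' : ∫ c in (0 : ℝ)..U, ‖∫ t in (0 : ℝ)..a, Z t * Z (t + c) ^ 2‖ ^ 2 ≤ CS * T ^ 2 * L ^ AS := by
    refine hs.trans ?_
    have e1 : a ^ 3 ≤ T ^ 2 := by
      calc a ^ 3 ≤ (r ^ 2) ^ 3 := pow_le_pow_left₀ (by linarith) ha2 3
        _ = (r ^ 3) ^ 2 := by ring
        _ = T ^ 2 := by rw [hr3]
    have e2 : Real.log a ≤ L := by rw [hL]; exact Real.log_le_log (by linarith) haT
    have e3 : 0 ≤ Real.log a := Real.log_nonneg (by linarith)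
    gcongr
  have hb : ∀ k ∈ Finset.range K, ∫ c in (0 : ℝ)..U, ‖∫ t in (T / 2 ^ k / 2)..(T / 2 ^ k), Z t * Z (t + c) ^ 2‖ ^ 2 ≤
      3 * CB * T ^ 2 * L ^ AB := by
    intro k hk
    have hkK : k ≤ K - 1 := by
      have := Finset.mem_range.1 hk
      omega
    obtain ⟨Y, hY⟩ : ∃ Y : ℝ, Y = T / 2 ^ k := ⟨_, rfl⟩
    have h2k : (0 : ℝ) < 2 ^ k := by positivity
    have hYl : r ≤ Y := by
      have h1 : (2 : ℝ) ^ k ≤ 2 * r := (pow_le_pow_right₀ (by norm_num) hkK).trans hK2r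
      rw [hY, le_div_iff₀ h2k, ← hr3]
      calc r * 2 ^ k ≤ r * (2 * r) := by gcongr
        _ ≤ r ^ 3 := by nlinarith [mul_nonneg (mul_nonneg hr0.le hr0.le) (by linarith : (0:ℝ) ≤ r - 2)]
    have hYT : Y ≤ T := by
      rw [hY]
      exact div_le_self hT0.le (one_le_pow₀ (by norm_num))
    have hY0 : 0 < Y := by linarith
    have h1 := hB Y U (by linarith) hU1 (hU.trans hYl)
    rw [← hY]
    refine h1.trans ?_
    have e2 : Real.log Y ≤ L := by rw [hL]; exact Real.log_le_log hY0 hYT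
    have e3 : 0 ≤ Real.log Y := Real.log_nonneg (by linarith)
    have e4 : Y ^ 2 + U * Y ^ (3 / 2 : ℝ) + U ^ 3 * Y ≤ 3 * T ^ 2 := by
      have f1 : Y ^ 2 ≤ T ^ 2 := pow_le_pow_left₀ hY0.le hYT 2
      have f2 : U * Y ^ (3 / 2 : ℝ) ≤ T ^ 2 := by
        calc U * Y ^ (3 / 2 : ℝ) ≤ r * T ^ (3 / 2 : ℝ) := by gcongr
          _ = T ^ (11 / 6 : ℝ) := by
              rw [hr, ← Real.rpow_add hT0]
              norm_num
          _ ≤ T ^ (2 : ℝ) := Real.rpow_le_rpow_of_exponent_le hT1 (by norm_num)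
          _ = T ^ 2 := by norm_cast
      have f3 : U ^ 3 * Y ≤ T ^ 2 := by
        calc U ^ 3 * Y ≤ r ^ 3 * T := by gcongr
          _ = T ^ 2 := by rw [hr3]; ring
      linarith
    calc CB * Real.log Y ^ AB * (Y ^ 2 + U * Y ^ (3 / 2 : ℝ) + U ^ 3 * Y)
        ≤ CB * L ^ AB * (3 * T ^ 2) := by gcongr
      _ = _ := by ring
  -- the sum
  have hpt : ∀ c : ℝ, ‖∫ t in (0 : ℝ)..T, Z t * Z (t + c) ^ 2‖ ^ 2 ≤
      2 * ‖∫ t in (0 : ℝ)..a, Z t * Z (t + c) ^ 2‖ ^ 2 +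
      2 * (K * ∑ k ∈ Finset.range K, ‖∫ t in (T / 2 ^ k / 2)..(T / 2 ^ k), Z t * Z (t + c) ^ 2‖ ^ 2) := by
    intro c
    rw [tel (hgc c) T K, ← ha]
    set x := ∫ t in (0 : ℝ)..a, Z t * Z (t + c) ^ 2
    have h1 := Pool.Agent.N879.PZ.Khaux.norm_sum_sq (Finset.range K)
      (fun k => ∫ t in (T / 2 ^ k / 2)..(T / 2 ^ k), Z t * Z (t + c) ^ 2)
    rw [Finset.card_range] at h1
    set s := ∑ k ∈ Finset.range K, ∫ t in (T / 2 ^ k / 2)..(T / 2 ^ k), Z t * Z (t + c) ^ 2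
    have h2 : ‖x + s‖ ^ 2 ≤ (‖x‖ + ‖s‖) ^ 2 := pow_le_pow_left₀ (norm_nonneg _) (norm_add_le _ _) 2
    nlinarith [sq_nonneg (‖x‖ - ‖s‖)]
  have i1 : IntervalIntegrable (fun c : ℝ => 2 * ‖∫ t in (0 : ℝ)..a, Z t * Z (t + c) ^ 2‖ ^ 2) volume 0 U :=
    (continuous_const.mul ((cI 0 a).norm.pow 2)).intervalIntegrable _ _
  have i3 : ∀ k ∈ Finset.range K, IntervalIntegrable (fun c : ℝ =>
      ‖∫ t in (T / 2 ^ k / 2)..(T / 2 ^ k), Z t * Z (t + c) ^ 2‖ ^ 2) volume 0 U := fun k _ =>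
    ((cI _ _).norm.pow 2).intervalIntegrable _ _
  have c2 : Continuous fun c : ℝ => 2 * (K * ∑ k ∈ Finset.range K,
      ‖∫ t in (T / 2 ^ k / 2)..(T / 2 ^ k), Z t * Z (t + c) ^ 2‖ ^ 2) :=
    continuous_const.mul (continuous_const.mul (continuous_finsetSum _ fun k _ => (cI _ _).norm.pow 2))
  have i2 := c2.intervalIntegrable (μ := volume) 0 U
  calc ∫ c in (0 : ℝ)..U, ‖∫ t in (0 : ℝ)..T, Z t * Z (t + c) ^ 2‖ ^ 2
      ≤ ∫ c in (0 : ℝ)..U, (2 * ‖∫ t in (0 : ℝ)..a, Z t * Z (t + c) ^ 2‖ ^ 2 +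
        2 * (K * ∑ k ∈ Finset.range K, ‖∫ t in (T / 2 ^ k / 2)..(T / 2 ^ k), Z t * Z (t + c) ^ 2‖ ^ 2)) :=
        intervalIntegral.integral_mono_on hU0 (((cI 0 T).norm.pow 2).intervalIntegrable _ _) (i1.add i2)
          fun c _ => hpt c
    _ = 2 * (∫ c in (0 : ℝ)..U, ‖∫ t in (0 : ℝ)..a, Z t * Z (t + c) ^ 2‖ ^ 2) +
        2 * (K * ∑ k ∈ Finset.range K, ∫ c in (0 : ℝ)..U,
          ‖∫ t in (T / 2 ^ k / 2)..(T / 2 ^ k), Z t * Z (t + c) ^ 2‖ ^ 2) := by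
        rw [intervalIntegral.integral_add i1 i2]
        have j1 : ∫ c in (0 : ℝ)..U, (2 * ‖∫ t in (0 : ℝ)..a, Z t * Z (t + c) ^ 2‖ ^ 2 : ℝ) =
            2 * ∫ c in (0 : ℝ)..U, ‖∫ t in (0 : ℝ)..a, Z t * Z (t + c) ^ 2‖ ^ 2 :=
          intervalIntegral.integral_const_mul _ _
        have j2 : ∫ c in (0 : ℝ)..U, (2 * (K * ∑ k ∈ Finset.range K,
            ‖∫ t in (T / 2 ^ k / 2)..(T / 2 ^ k), Z t * Z (t + c) ^ 2‖ ^ 2) : ℝ) =
            2 * ∫ c in (0 : ℝ)..U, (K * ∑ k ∈ Finset.range K,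
            ‖∫ t in (T / 2 ^ k / 2)..(T / 2 ^ k), Z t * Z (t + c) ^ 2‖ ^ 2 : ℝ) :=
          intervalIntegral.integral_const_mul _ _
        have j3 : ∫ c in (0 : ℝ)..U, (K * ∑ k ∈ Finset.range K,
            ‖∫ t in (T / 2 ^ k / 2)..(T / 2 ^ k), Z t * Z (t + c) ^ 2‖ ^ 2 : ℝ) =
            K * ∫ c in (0 : ℝ)..U, (∑ k ∈ Finset.range K,
            ‖∫ t in (T / 2 ^ k / 2)..(T / 2 ^ k), Z t * Z (t + c) ^ 2‖ ^ 2 : ℝ) :=
          intervalIntegral.integral_const_mul _ _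
        rw [j1, j2, j3, intervalIntegral.integral_finsetSum i3]
    _ ≤ 2 * (CS * T ^ 2 * L ^ AS) + 2 * (K * ∑ k ∈ Finset.range K, 3 * CB * T ^ 2 * L ^ AB) := by
        gcongr with k hk
        exact hb k hk
    _ = 2 * (CS * T ^ 2 * L ^ AS) + 6 * ((K : ℝ) ^ 2 * (CB * T ^ 2 * L ^ AB)) := by
        rw [Finset.sum_const, Finset.card_range, nsmul_eq_mul]
        ring
    _ ≤ 2 * (CS * T ^ 2 * L ^ (AS + AB + 2)) + 6 * ((4 * L) ^ 2 * (CB * T ^ 2 * L ^ AB)) := by gcongr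
    _ = 2 * CS * T ^ 2 * L ^ (AS + AB + 2) + 96 * CB * T ^ 2 * L ^ (AB + 2) := by ring
    _ ≤ 2 * CS * T ^ 2 * L ^ (AS + AB + 2) + 96 * CB * T ^ 2 * L ^ (AS + AB + 2) := by
        have : L ^ (AB + 2) ≤ L ^ (AS + AB + 2) := pow_le_pow_right₀ hL1 (by omega)
        gcongr
    _ ≤ (64 * CS + 96 * CB) * T ^ 2 * L ^ (AS + AB + 2) := by
        have h1 : 0 ≤ CS * T ^ 2 * L ^ (AS + AB + 2) := by positivity
        nlinarith

end

end Pool.Agent.T9h29.HC
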