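import Pool.Agent.T9h29.HC.Tm2
import Pool.Agent.T9h29.HC.Main5
import Pool.Agent.T9h29.HC.Exc3
import Pool.Agent.T9h29.HC.J
import Pool.Agent.T9h31.HC.Th
import Pool.Agent.T9h57.HC.Kh3
import Pool.Agent.T9h70.HC.Lb
import Pool.Agent.T9h51.HC.Low
import Pool.Agent.T9h41.HC.Blk3
import Pool.Agent.T9h8.HC.Sm2

set_option autoImplicit false

/-! Project HC (helper29): the final theorem, third round. -/

namespace Pool.Agent.T9h29.HC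

open Complex Filter Topology MeasureTheory Set
open Pool.Agent.R304.SG (Z)

noncomputable section

theorem fin3 :
    (∃ (C : ℝ) (A : ℕ), ∀ T U : ℝ, 3 ≤ T → 1 ≤ U → U ≤ T ^ (1 / 2 : ℝ) →
      ∫ c in (0 : ℝ)..U, ‖∫ t in (0 : ℝ)..T, Z t * Z (t + c) ^ 2‖ ^ 2 ≤ C * T ^ 2 * Real.log T ^ A) ∧
    ∀ η ε : ℝ, 0 < ε → ∃ T₀ : ℝ, ∀ T : ℝ, T₀ ≤ T →
      volume {c | c ∈ Icc 0 (T ^ (1 / 2 : ℝ)) ∧ T ^ (1 - η) < ‖∫ t in (0 : ℝ)..T, Z t * Z (t + c) ^ 2‖} ≤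
        ENNReal.ofReal (T ^ (2 * η + ε)) := by
  have hm := main5 (Pool.Agent.T9h41.HC.blk3 Pool.Agent.T9h57.HC.kh3
    (Pool.Agent.T9h51.HC.low (Pool.Agent.T9h70.HC.lb (tm2 (tj Pool.Agent.T9h31.HC.th))))) Pool.Agent.T9h8.HC.sm2
  refine ⟨?_, exc3 hm⟩
  obtain ⟨C, A, -, h⟩ := hm
  exact ⟨C, A, h⟩

end

end Pool.Agent.T9h29.HC
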