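import Pool.Agent.T9h29.HC.Spec
import Pool.Agent.N879.PZ.Ker
import Pool.Agent.N879.PZ.Kh
import Pool.Agent.N879.PZ.Kl
import Pool.Agent.N879.PZ.Lc
import Pool.Agent.N879.PZ.Lt
import Pool.Agent.N879.PZ.Crd
import Pool.Agent.N879.PZ.Afx
import Pool.Agent.N879.PZ.M4l

set_option autoImplicit false

/-! Project HC (helper29): assembly. -/

namespace Pool.Agent.T9h29.HC

open Complex Filter Topology MeasureTheory Set
open Pool.Agent.R304.SG (Z phase phase_cont Z_cont Z_re)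
open Pool.Agent.R304.GR (vt psi vt_cont exp_vt)
open Pool.Agent.Y969.GP (ff ht lam FR)
open Pool.Agent.N879.PZ (DN ee Par)

noncomputable section

lemma phase_norm (t : ℝ) : ‖phase t‖ = 1 := by
  rw [← exp_vt, mul_comm, Complex.norm_exp_ofReal_mul_I]

lemma Z_norm_sq (t : ℝ) : ‖Z t‖ ^ 2 = ff t := by
  unfold Z ff
  rw [norm_mul, phase_norm, one_mul]

lemma Z_sq (t : ℝ) : Z t ^ 2 = ((ff t : ℝ) : ℂ) := by
  rw [← Z_norm_sq, ← Z_re t, Complex.norm_real, Real.norm_eq_abs, sq_abs]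
  push_cast
  rfl

/-- the theorem, for longer intervals of shifts -/
def S_MAIN2 : Prop := ∃ (C : ℝ) (A : ℕ), 0 < C ∧ ∀ T U : ℝ, 3 ≤ T → 1 ≤ U → U ≤ T ^ (1 / 4 : ℝ) →
  ∫ c in (0 : ℝ)..U, ‖∫ t in (0 : ℝ)..T, Z t * Z (t + c) ^ 2‖ ^ 2 ≤
    C * (T ^ 2 * (1 + U * T ^ (-(1 / 16) : ℝ))) * Real.log T ^ A

theorem main (hM : S_MODEL) (hS : S_SMALL) : S_MAIN2 := by
  obtain ⟨CM, hCM, hM⟩ := hM
  obtain ⟨CS, AS, hCS, hS⟩ := hS
  obtain ⟨CK, AK, hCK, hK⟩ := Pool.Agent.N879.PZ.t_KER Pool.Agent.N879.PZ.t_AFX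
    (Pool.Agent.N879.PZ.t_KH Pool.Agent.N879.PZ.t_CRD Pool.Agent.N879.PZ.t_LC Pool.Agent.N879.PZ.t_LT)
    Pool.Agent.N879.PZ.t_KL
  obtain ⟨C4, A4, hC4, h4⟩ := Pool.Agent.N879.PZ.t_M4L Pool.Agent.N879.PZ.t_AFX Pool.Agent.N879.PZ.t_CRD
    Pool.Agent.N879.PZ.t_LT
  refine ⟨3 * (CS ^ 2 + CM ^ 2 + 3 * CK * (1 + C4)), 2 * AS + 2 + AK + A4, by positivity, ?_⟩
  intro T U hT hU1 hU
  have hT0 : (0 : ℝ) < T := by linarith
  have hT1 : (1 : ℝ) ≤ T := by linarith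
  have hL1 : 1 ≤ Real.log T := Pool.Agent.N879.PZ.Keraux.log_ge hT
  set L := Real.log T with hL
  have hL0 : 0 ≤ L := by linarith
  obtain ⟨a, ha⟩ : ∃ a : ℝ, a = T ^ (7 / 8 : ℝ) := ⟨_, rfl⟩
  have ha0 : 0 < a := by rw [ha]; exact Real.rpow_pos_of_pos hT0 _
  have haT : a ≤ T := by
    rw [ha]
    calc T ^ (7 / 8 : ℝ) ≤ T ^ (1 : ℝ) := Real.rpow_le_rpow_of_exponent_le hT1 (by norm_num)
      _ = T := Real.rpow_one T
  obtain ⟨w, hw⟩ : ∃ w : ℝ, w = min U (T ^ (1 / 16 : ℝ)) := ⟨_, rfl⟩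
  obtain ⟨N, hN⟩ : ∃ N : ℕ, N = ⌊w⌋₊ := ⟨_, rfl⟩
  have hU0 : 0 < U := by linarith
  have h16 : (1 : ℝ) ≤ T ^ (1 / 16 : ℝ) := Real.one_le_rpow hT1 (by norm_num)
  have hw1 : 1 ≤ w := by rw [hw]; exact le_min hU1 h16
  have hwU : w ≤ U := by rw [hw]; exact min_le_left _ _
  have hwT : w ≤ T ^ (1 / 16 : ℝ) := by rw [hw]; exact min_le_right _ _
  have hN1 : 1 ≤ N := by rw [hN]; exact Nat.floor_pos.2 hw1
  have hNw : (N : ℝ) ≤ w := by rw [hN]; exact Nat.floor_le (by linarith)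
  have hUN : w < N + 1 := by rw [hN]; exact Nat.lt_floor_add_one w
  have hN1r : (1 : ℝ) ≤ N := by exact_mod_cast hN1
  have hPar : Par T U a N :=
    ⟨hT, hU1, hU, by rw [ha], haT, hN1, hNw.trans hwT, hNw.trans hwU⟩
  have hUa : U ≤ a := by
    rw [ha]
    exact hU.trans (Real.rpow_le_rpow_of_exponent_le hT1 (by norm_num))
  obtain ⟨Q, hQ⟩ : ∃ Q : ℝ, Q = 1 + U * T ^ (-(1 / 16) : ℝ) := ⟨_, rfl⟩
  have hT16 : T ^ (-(1 / 16) : ℝ) * T ^ (1 / 16 : ℝ) = 1 := by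
    rw [← Real.rpow_add hT0]
    norm_num
  have hTm : 0 < T ^ (-(1 / 16) : ℝ) := Real.rpow_pos_of_pos hT0 _
  have hQ1 : 1 ≤ Q := by rw [hQ]; nlinarith
  have hUQ : U ≤ w * Q := by
    rcases le_total U (T ^ (1 / 16 : ℝ)) with h | h
    · rw [hw, min_eq_left h]
      nlinarith
    · rw [hw, min_eq_right h, hQ]
      nlinarith
  have hUN3 : U / N + 1 ≤ 3 * Q := by
    have : U / N ≤ 2 * Q := by
      rw [div_le_iff₀ (by linarith)]
      nlinarith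
    linarith
  -- continuity
  have hffc : Continuous fun u : ℝ => ((ff u : ℝ) : ℂ) := Pool.Agent.N879.PZ.Keraux.ff_cont
  have hffr : Continuous ff := Pool.Agent.N879.PZ.M4laux.ff_cont
  have hDN := Pool.Agent.N879.PZ.Keraux.DN_cont N
  have hZc := Z_cont
  have cI : Continuous fun c : ℝ => ∫ t in (0 : ℝ)..T, Z t * Z (t + c) ^ 2 := by
    apply intervalIntegral.continuous_parametric_intervalIntegral_of_continuous'
    have : Continuous fun q : ℝ × ℝ => Z q.2 * Z (q.2 + q.1) ^ 2 :=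
      (hZc.comp continuous_snd).mul ((hZc.comp (continuous_snd.add continuous_fst)).pow 2)
    exact this
  have cE : Continuous fun c : ℝ => ∫ t in a..T, Z t * ((ff (t + c) : ℂ) - DN N (t + c)) := by
    apply intervalIntegral.continuous_parametric_intervalIntegral_of_continuous'
    have : Continuous fun q : ℝ × ℝ => Z q.2 * ((ff (q.2 + q.1) : ℂ) - DN N (q.2 + q.1)) :=
      (hZc.comp continuous_snd).mul ((hffc.comp (continuous_snd.add continuous_fst)).sub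
        (hDN.comp (continuous_snd.add continuous_fst)))
    exact this
  -- the second moment
  have h2 : ∫ t in a..T, ‖Z t‖ ^ 2 ≤ (1 + C4) * T * L ^ A4 := by
    have hi2 : ∀ x y : ℝ, IntervalIntegrable (fun t => ff t ^ 2) volume x y := fun x y =>
      (hffr.pow 2).intervalIntegrable _ _
    calc ∫ t in a..T, ‖Z t‖ ^ 2 ≤ ∫ t in a..T, (1 + ff t ^ 2) := by
          refine intervalIntegral.integral_mono_on haT ((hZc.norm.pow 2).intervalIntegrable _ _)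
            ((continuous_const.add (hffr.pow 2)).intervalIntegrable _ _) fun t _ => ?_
          rw [Z_norm_sq]
          nlinarith [sq_nonneg (ff t - 1)]
      _ = (T - a) + ∫ t in a..T, ff t ^ 2 := by
          rw [intervalIntegral.integral_add (continuous_const.intervalIntegrable _ _) (hi2 _ _)]
          simp
      _ ≤ T + ∫ t in (0 : ℝ)..T, ff t ^ 2 := by
          have h3 : ∫ t in a..T, ff t ^ 2 ≤ ∫ t in (0 : ℝ)..T, ff t ^ 2 := by
            refine intervalIntegral.integral_mono_interval ha0.le haT le_rfl ?_ (hi2 _ _)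
            exact Eventually.of_forall fun t => sq_nonneg _
          linarith
      _ ≤ T + C4 * T * L ^ A4 := by
          have := h4 T hT
          linarith
      _ ≤ _ := by
          have h5 : 1 ≤ L ^ A4 := one_le_pow₀ hL1
          nlinarith [mul_le_mul_of_nonneg_left h5 hT0.le]
  -- the operator bound
  have hWb : Pool.Agent.N879.PZ.Wb a T Z := by
    refine ⟨hZc.measurable, ?_⟩
    obtain ⟨M, hM'⟩ := isCompact_Icc.exists_bound_of_continuousOn (s := Icc a T) hZc.continuousOn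
    exact ⟨M, hM'⟩
  have hker := hK T U a N Z hPar hWb
  have hkerb : ∫ c in (0 : ℝ)..U, ‖∫ t in a..T, Z t * ((ff (t + c) : ℂ) - DN N (t + c))‖ ^ 2 ≤
      3 * CK * (1 + C4) * (T ^ 2 * Q) * L ^ (AK + A4) := by
    refine hker.trans ?_
    have hp : 0 ≤ CK * L ^ AK := by positivity
    calc CK * L ^ AK * (T * (U / N + 1)) * ∫ t in a..T, ‖Z t‖ ^ 2
        ≤ CK * L ^ AK * (T * (3 * Q)) * ((1 + C4) * T * L ^ A4) := by
          have h6 : 0 ≤ ∫ t in a..T, ‖Z t‖ ^ 2 :=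
            intervalIntegral.integral_nonneg haT fun t _ => by positivity
          gcongr
      _ = _ := by rw [pow_add]; ring
  -- the bounds of the other parts
  obtain ⟨BS, hBS⟩ : ∃ B : ℝ, B = CS * T ^ (7 / 8 : ℝ) * L ^ AS := ⟨_, rfl⟩
  obtain ⟨BM, hBM⟩ : ∃ B : ℝ, B = CM * T ^ (29 / 32 : ℝ) * L := ⟨_, rfl⟩
  have hBS0 : 0 ≤ BS := by rw [hBS]; positivity
  have hBM0 : 0 ≤ BM := by rw [hBM]; positivity
  have hpt : ∀ c ∈ Icc (0 : ℝ) U, ‖∫ t in (0 : ℝ)..T, Z t * Z (t + c) ^ 2‖ ^ 2 ≤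
      3 * (BS ^ 2 + BM ^ 2) + 3 * ‖∫ t in a..T, Z t * ((ff (t + c) : ℂ) - DN N (t + c))‖ ^ 2 := by
    intro c hc
    have c1 : Continuous fun t : ℝ => Z t * (ff (t + c) : ℂ) :=
      hZc.mul (hffc.comp (continuous_id.add continuous_const))
    have c2 : Continuous fun t : ℝ => Z t * ((ff (t + c) : ℂ) - DN N (t + c)) :=
      hZc.mul ((hffc.comp (continuous_id.add continuous_const)).sub (hDN.comp (continuous_id.add continuous_const)))
    have c3 : Continuous fun t : ℝ => Z t * DN N (t + c) :=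
      hZc.mul (hDN.comp (continuous_id.add continuous_const))
    have e : ∫ t in (0 : ℝ)..T, Z t * Z (t + c) ^ 2 = (∫ t in (0 : ℝ)..a, Z t * (ff (t + c) : ℂ)) +
        ((∫ t in a..T, Z t * ((ff (t + c) : ℂ) - DN N (t + c))) + ∫ t in a..T, Z t * DN N (t + c)) := by
      rw [← intervalIntegral.integral_add (c2.intervalIntegrable _ _) (c3.intervalIntegrable _ _)]
      have e1 : ∫ t in a..T, (Z t * ((ff (t + c) : ℂ) - DN N (t + c)) + Z t * DN N (t + c)) =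
          ∫ t in a..T, Z t * (ff (t + c) : ℂ) := by
        refine intervalIntegral.integral_congr fun t _ => ?_
        ring
      rw [e1, intervalIntegral.integral_add_adjacent_intervals (c1.intervalIntegrable _ _)
        (c1.intervalIntegrable _ _)]
      refine intervalIntegral.integral_congr fun t _ => ?_
      rw [Z_sq]
    have hs := hS T c hT hc.1 (by rw [← ha]; exact hc.2.trans hUa)
    rw [← ha, ← hL] at hs
    have hm := hM T U a N c hPar hc.1 hc.2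
    rw [← hL] at hm
    rw [ha] at hs
    rw [← hBS] at hs
    rw [← hBM] at hm
    rw [← ha] at hs
    rw [e]
    set x := ∫ t in (0 : ℝ)..a, Z t * (ff (t + c) : ℂ)
    set y := ∫ t in a..T, Z t * ((ff (t + c) : ℂ) - DN N (t + c))
    set w := ∫ t in a..T, Z t * DN N (t + c)
    have h7 : ‖x + (y + w)‖ ≤ BS + (‖y‖ + BM) :=
      (norm_add_le _ _).trans (add_le_add hs ((norm_add_le _ _).trans (add_le_add le_rfl hm)))
    have h8 : ‖x + (y + w)‖ ^ 2 ≤ (BS + (‖y‖ + BM)) ^ 2 := by gcongr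
    nlinarith [sq_nonneg (BS - ‖y‖), sq_nonneg (BS - BM), sq_nonneg (‖y‖ - BM)]
  have hint : ∫ c in (0 : ℝ)..U, ‖∫ t in (0 : ℝ)..T, Z t * Z (t + c) ^ 2‖ ^ 2 ≤
      3 * (BS ^ 2 + BM ^ 2) * U +
        3 * ∫ c in (0 : ℝ)..U, ‖∫ t in a..T, Z t * ((ff (t + c) : ℂ) - DN N (t + c))‖ ^ 2 := by
    calc ∫ c in (0 : ℝ)..U, ‖∫ t in (0 : ℝ)..T, Z t * Z (t + c) ^ 2‖ ^ 2
        ≤ ∫ c in (0 : ℝ)..U, (3 * (BS ^ 2 + BM ^ 2) +
          3 * ‖∫ t in a..T, Z t * ((ff (t + c) : ℂ) - DN N (t + c))‖ ^ 2) := by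
          refine intervalIntegral.integral_mono_on hU0.le ((cI.norm.pow 2).intervalIntegrable _ _) ?_ hpt
          exact (continuous_const.add (continuous_const.mul (cE.norm.pow 2))).intervalIntegrable _ _
      _ = _ := by
          have i1 : IntervalIntegrable (fun _ : ℝ => 3 * (BS ^ 2 + BM ^ 2)) volume 0 U :=
            continuous_const.intervalIntegrable _ _
          have i2 : IntervalIntegrable (fun c : ℝ => 3 *
              ‖∫ t in a..T, Z t * ((ff (t + c) : ℂ) - DN N (t + c))‖ ^ 2) volume 0 U :=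
            (continuous_const.mul (cE.norm.pow 2)).intervalIntegrable _ _
          have j1 : ∫ _ in (0 : ℝ)..U, (3 * (BS ^ 2 + BM ^ 2) : ℝ) = 3 * (BS ^ 2 + BM ^ 2) * U := by
            rw [intervalIntegral.integral_const, smul_eq_mul, sub_zero]
            ring
          have j2 : ∫ c in (0 : ℝ)..U, (3 * ‖∫ t in a..T, Z t * ((ff (t + c) : ℂ) - DN N (t + c))‖ ^ 2 : ℝ) =
              3 * ∫ c in (0 : ℝ)..U, ‖∫ t in a..T, Z t * ((ff (t + c) : ℂ) - DN N (t + c))‖ ^ 2 :=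
            intervalIntegral.integral_const_mul _ _
          rw [intervalIntegral.integral_add i1 i2, j1, j2]
  refine hint.trans ?_
  -- sizes
  have hT2 : T ^ (2 : ℝ) = T ^ 2 := by norm_cast
  have hQ0 : 0 ≤ Q := by linarith
  have hsz : U * T ^ (31 / 16 : ℝ) ≤ T ^ 2 * Q := by
    have e1 : T ^ (31 / 16 : ℝ) = T ^ 2 * T ^ (-(1 / 16) : ℝ) := by
      rw [← hT2, ← Real.rpow_add hT0]
      norm_num
    have e2 : (0 : ℝ) ≤ T ^ 2 := by positivity
    rw [e1, hQ]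
    nlinarith
  have hs1 : BS ^ 2 * U ≤ CS ^ 2 * (T ^ 2 * Q) * L ^ (2 * AS) := by
    have e1 : (T ^ (7 / 8 : ℝ)) ^ 2 = T ^ (7 / 4 : ℝ) := by
      rw [← Real.rpow_natCast, ← Real.rpow_mul hT0.le]; norm_num
    have e2 : T ^ (7 / 4 : ℝ) ≤ T ^ (31 / 16 : ℝ) := Real.rpow_le_rpow_of_exponent_le hT1 (by norm_num)
    calc BS ^ 2 * U = CS ^ 2 * L ^ (2 * AS) * (U * T ^ (7 / 4 : ℝ)) := by
          rw [hBS, mul_pow, mul_pow, e1, ← pow_mul, mul_comm AS 2]; ring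
      _ ≤ CS ^ 2 * L ^ (2 * AS) * (U * T ^ (31 / 16 : ℝ)) := by gcongr
      _ ≤ CS ^ 2 * L ^ (2 * AS) * (T ^ 2 * Q) := by gcongr
      _ = _ := by ring
  have hs2 : BM ^ 2 * U ≤ CM ^ 2 * (T ^ 2 * Q) * L ^ 2 := by
    have e1 : (T ^ (29 / 32 : ℝ)) ^ 2 = T ^ (29 / 16 : ℝ) := by
      rw [← Real.rpow_natCast, ← Real.rpow_mul hT0.le]; norm_num
    have e2 : T ^ (29 / 16 : ℝ) ≤ T ^ (31 / 16 : ℝ) := Real.rpow_le_rpow_of_exponent_le hT1 (by norm_num)
    calc BM ^ 2 * U = CM ^ 2 * L ^ 2 * (U * T ^ (29 / 16 : ℝ)) := by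
          rw [hBM, mul_pow, mul_pow, e1]; ring
      _ ≤ CM ^ 2 * L ^ 2 * (U * T ^ (31 / 16 : ℝ)) := by gcongr
      _ ≤ CM ^ 2 * L ^ 2 * (T ^ 2 * Q) := by gcongr
      _ = _ := by ring
  rw [← hQ]
  obtain ⟨R, hR⟩ : ∃ R : ℝ, R = T ^ 2 * Q := ⟨_, rfl⟩
  have hR0 : 0 ≤ R := by rw [hR]; positivity
  rw [← hR] at hs1 hs2 hkerb ⊢
  set P := L ^ (2 * AS + 2 + AK + A4) with hP
  have q1 : L ^ (2 * AS) ≤ P := pow_le_pow_right₀ hL1 (by omega)
  have q2 : L ^ 2 ≤ P := pow_le_pow_right₀ hL1 (by omega)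
  have q3 : L ^ (AK + A4) ≤ P := pow_le_pow_right₀ hL1 (by omega)
  have r1 : CS ^ 2 * R * L ^ (2 * AS) ≤ CS ^ 2 * R * P := by gcongr
  have r2 : CM ^ 2 * R * L ^ 2 ≤ CM ^ 2 * R * P := by gcongr
  have r3 : 3 * CK * (1 + C4) * R * L ^ (AK + A4) ≤ 3 * CK * (1 + C4) * R * P := by gcongr
  have s1 := hs1.trans r1
  have s2 := hs2.trans r2
  have s3 := hkerb.trans r3
  have e9 : 3 * (BS ^ 2 + BM ^ 2) * U = 3 * (BS ^ 2 * U) + 3 * (BM ^ 2 * U) := by ring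
  rw [e9]
  have e10 : 3 * (CS ^ 2 + CM ^ 2 + 3 * CK * (1 + C4)) * R * P =
      3 * (CS ^ 2 * R * P) + 3 * (CM ^ 2 * R * P) + 3 * (3 * CK * (1 + C4) * R * P) := by ring
  rw [e10]
  linarith

end

end Pool.Agent.T9h29.HC
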