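import Pool.Agent.R304.GR.Th
import Pool.Agent.N879.PZ.Stm

set_option autoImplicit false

/-! Project HC (helper29): the cubic moment of Hardy's function for almost all shifts (MP_56c76e_nt). Statements. -/

namespace Pool.Agent.T9h29.HC

open Complex Filter Topology MeasureTheory Set
open Pool.Agent.R304.SG (Z)
open Pool.Agent.R304.GR (vt psi)
open Pool.Agent.Y969.GP (ff ht lam FR)
open Pool.Agent.N879.PZ (DN ee Par)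

noncomputable section

/-- TH: the second derivative of the theta function -/
def S_TH : Prop := ∃ c : ℝ, 0 < c ∧ ∃ q : ℝ → ℝ, ContinuousOn q (Ici 1) ∧
  ∀ t : ℝ, 1 ≤ t → HasDerivAt psi (q t) t ∧ c / t ≤ q t

/-- J: the oscillating integrals -/
def S_J : Prop := ∃ C : ℝ, 0 < C ∧ ∀ a x T μ : ℝ, 1 ≤ a → a ≤ x → x ≤ T →
  ‖∫ t in a..x, cexp (I * ((vt t - μ * t : ℝ) : ℂ))‖ ≤ C * √T ∧
  (Real.log T / 2 + C ≤ μ → ‖∫ t in a..x, cexp (I * ((vt t - μ * t : ℝ) : ℂ))‖ ≤ C)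

/-- TM: twisted first moment of Hardy's function -/
def S_TM : Prop := ∃ C : ℝ, 0 < C ∧ ∀ a x T l : ℝ, 3 ≤ T → T ^ (7 / 8 : ℝ) ≤ a → a ≤ x → x ≤ T →
  |l| ≤ Real.log T / 16 →
  ‖∫ t in a..x, Z t * cexp (I * ((t * l : ℝ) : ℂ))‖ ≤ C * T ^ (25 / 32 : ℝ)

/-- LOG: the same with a logarithmic weight -/
def S_LOG : Prop := ∃ C : ℝ, 0 < C ∧ ∀ a T l c h : ℝ, 3 ≤ T → T ^ (7 / 8 : ℝ) ≤ a → a ≤ T →
  |l| ≤ Real.log T / 16 → 0 ≤ c → c ≤ T → 1 ≤ h → h ≤ T →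
  ‖∫ t in a..T, Z t * (((Real.log (max (t + c) 1 / (2 * Real.pi * h)) + 2 * Real.eulerMascheroniConstant : ℝ) : ℂ) *
    cexp (I * (((t + c) * l : ℝ) : ℂ)))‖ ≤ C * T ^ (25 / 32 : ℝ) * Real.log T

/-- MODEL: the model of the shifted moment -/
def S_MODEL : Prop := ∃ C : ℝ, 0 < C ∧ ∀ (T U a : ℝ) (N : ℕ) (c : ℝ), Par T U a N → 0 ≤ c → c ≤ U →
  ‖∫ t in a..T, Z t * DN N (t + c)‖ ≤ C * T ^ (29 / 32 : ℝ) * Real.log T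

/-- SMALL: the small `t` -/
def S_SMALL : Prop := ∃ (C : ℝ) (A : ℕ), 0 < C ∧ ∀ T c : ℝ, 3 ≤ T → 0 ≤ c → c ≤ T ^ (7 / 8 : ℝ) →
  ‖∫ t in (0 : ℝ)..(T ^ (7 / 8 : ℝ)), Z t * (ff (t + c) : ℂ)‖ ≤ C * T ^ (7 / 8 : ℝ) * Real.log T ^ A

/-- the theorem -/
def S_MAIN : Prop := ∃ (C : ℝ) (A : ℕ), 0 < C ∧ ∀ T U : ℝ, 3 ≤ T → 1 ≤ U → U ≤ T ^ (1 / 16 : ℝ) →
  ∫ c in (0 : ℝ)..U, ‖∫ t in (0 : ℝ)..T, Z t * Z (t + c) ^ 2‖ ^ 2 ≤ C * T ^ 2 * Real.log T ^ A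

end

end Pool.Agent.T9h29.HC
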