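import Pool.Agent.T9h29.HC.Main

set_option autoImplicit false

/-! Project HC (helper29), second round: the exponent `1 - θ/2` for almost all shifts in `[0,T^θ]`, `θ ≤ 1/3`. -/

namespace Pool.Agent.T9h29.HC

open Complex Filter Topology MeasureTheory Set
open Pool.Agent.R304.SG (Z)
open Pool.Agent.Y969.GP (ff ht lam FR cr)
open Pool.Agent.N879.PZ (ee HH Wb)

noncomputable section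

/-- parameters -/
def Par2 (T U a : ℝ) (N : ℕ) : Prop := 3 ≤ T ∧ 1 ≤ U ∧ U ≤ T ∧ T / 2 ≤ a ∧ a ≤ T ∧ 1 ≤ N ∧ (N : ℝ) ≤ T ∧ (N : ℝ) ≤ U

/-- the low frequencies -/
def LO (N X : ℕ) (u : ℝ) : ℂ := ∑ p ∈ (FR X).filter (fun p => ¬ (N : ℝ) < ht p), ((cr X p u : ℝ) : ℂ) * ee u p

/-- KH2: the high frequencies as an operator (the proof of `Pool.Agent.N879.PZ.t_KH` with `Par2` for `Par`) -/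
def S_KH2 : Prop := ∃ (C : ℝ) (A : ℕ), 0 < C ∧ ∀ (T U a : ℝ) (N X : ℕ) (F : ℝ → ℂ), Par2 T U a N →
  (2 * T) ^ 2 ≤ X → (X : ℝ) ≤ 5 * T ^ 2 → Wb a T F →
  ∫ c in (0 : ℝ)..U, ‖∫ t in a..T, F t * HH N X (t + c)‖ ^ 2 ≤
    C * Real.log T ^ A * (T * (U / N + 1) + U ^ 3) * ∫ t in a..T, ‖F t‖ ^ 2

/-- TM2: twisted first moment of Hardy's function, refined -/
def S_TM2 : Prop := ∃ C : ℝ, 0 < C ∧ ∀ a x T l : ℝ, 3 ≤ T → T / 2 ≤ a → a ≤ x → x ≤ T →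
  ‖∫ t in a..x, Z t * cexp (I * ((t * l : ℝ) : ℂ))‖ ≤ C * (T ^ (3 / 4 : ℝ) * Real.exp (-(|l| / 2)) + √T)

/-- LB: the coefficients of the low frequencies -/
def S_LB : Prop := ∃ (C : ℝ) (A : ℕ), 0 < C ∧ ∀ (T a : ℝ) (X : ℕ) (p : ℕ × ℕ), 3 ≤ T → T / 2 ≤ a → a ≤ T →
  (2 * T) ^ 2 ≤ X → (X : ℝ) ≤ 5 * T ^ 2 → p ∈ FR X →
  ‖∫ t in a..T, Z t * (((cr X p t : ℝ) : ℂ) * ee t p)‖ ≤
    C * Real.log T ^ A * (√(ht p))⁻¹ * (T ^ (3 / 4 : ℝ) * Real.exp (-(|lam p| / 2)) + √T)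

/-- LOW: the low frequencies -/
def S_LOW : Prop := ∃ (C : ℝ) (A : ℕ), 0 < C ∧ ∀ (T U a : ℝ) (N X : ℕ), Par2 T U a N →
  (2 * T) ^ 2 ≤ X → (X : ℝ) ≤ 5 * T ^ 2 →
  ∫ c in (0 : ℝ)..U, ‖∫ t in a..T, Z t * LO N X (t + c)‖ ^ 2 ≤
    C * Real.log T ^ A * (U * T ^ (3 / 2 : ℝ) + U ^ 3)

/-- BLK: one dyadic block -/
def S_BLK : Prop := ∃ (C : ℝ) (A : ℕ), 0 < C ∧ ∀ T U : ℝ, 3 ≤ T → 1 ≤ U → U ≤ T →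
  ∫ c in (0 : ℝ)..U, ‖∫ t in (T / 2)..T, Z t * Z (t + c) ^ 2‖ ^ 2 ≤
    C * Real.log T ^ A * (T ^ 2 + U * T ^ (3 / 2 : ℝ) + U ^ 3 * T)

/-- SM2: the small `t` -/
def S_SM2 : Prop := ∃ (C : ℝ) (A : ℕ), 0 < C ∧ ∀ a U : ℝ, 3 ≤ a → 1 ≤ U → U ≤ a →
  ∫ c in (0 : ℝ)..U, ‖∫ t in (0 : ℝ)..a, Z t * Z (t + c) ^ 2‖ ^ 2 ≤ C * a ^ 3 * Real.log a ^ A

/-- the theorem, second form -/
def S_MAIN3 : Prop := ∃ (C : ℝ) (A : ℕ), 0 < C ∧ ∀ T U : ℝ, 3 ≤ T → 1 ≤ U → U ≤ T ^ (1 / 3 : ℝ) →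
  ∫ c in (0 : ℝ)..U, ‖∫ t in (0 : ℝ)..T, Z t * Z (t + c) ^ 2‖ ^ 2 ≤ C * T ^ 2 * Real.log T ^ A

end

end Pool.Agent.T9h29.HC
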