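import Pool.Agent.T9h29.HC.Spec2

set_option autoImplicit false

/-! Project HC (helper29), third round: shifts up to `√T`, exponent `3/4`. -/

namespace Pool.Agent.T9h29.HC

open Complex Filter Topology MeasureTheory Set
open Pool.Agent.R304.SG (Z)
open Pool.Agent.Y969.GP (ff ht lam FR cr)
open Pool.Agent.N879.PZ (ee HH Wb)

noncomputable section

/-- KH3: KH2 with the better error term `U²` -/
def S_KH3 : Prop := ∃ (C : ℝ) (A : ℕ), 0 < C ∧ ∀ (T U a : ℝ) (N X : ℕ) (F : ℝ → ℂ), Par2 T U a N →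
  (2 * T) ^ 2 ≤ X → (X : ℝ) ≤ 5 * T ^ 2 → Wb a T F →
  ∫ c in (0 : ℝ)..U, ‖∫ t in a..T, F t * HH N X (t + c)‖ ^ 2 ≤
    C * Real.log T ^ A * (T * (U / N + 1) + U ^ 2) * ∫ t in a..T, ‖F t‖ ^ 2

/-- BLK3: one dyadic block -/
def S_BLK3 : Prop := ∃ (C : ℝ) (A : ℕ), 0 < C ∧ ∀ T U : ℝ, 3 ≤ T → 1 ≤ U → U ≤ T →
  ∫ c in (0 : ℝ)..U, ‖∫ t in (T / 2)..T, Z t * Z (t + c) ^ 2‖ ^ 2 ≤
    C * Real.log T ^ A * (T ^ 2 + U * T ^ (3 / 2 : ℝ) + U ^ 2 * T)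

/-- the theorem, third form -/
def S_MAIN5 : Prop := ∃ (C : ℝ) (A : ℕ), 0 < C ∧ ∀ T U : ℝ, 3 ≤ T → 1 ≤ U → U ≤ T ^ (1 / 2 : ℝ) →
  ∫ c in (0 : ℝ)..U, ‖∫ t in (0 : ℝ)..T, Z t * Z (t + c) ^ 2‖ ^ 2 ≤ C * T ^ 2 * Real.log T ^ A

end

end Pool.Agent.T9h29.HC
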