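import Pool.Agent.T9h29.HC.Spec
import Pool.Agent.TH321.GF.AQ

set_option autoImplicit false

/-! Project HC (helper29): the twisted first moment of Hardy's function. -/

namespace Pool.Agent.T9h29.HC

open Complex Filter Topology MeasureTheory Set
open Pool.Agent.R304.SG (Z phase phase_cont Z_cont)
open Pool.Agent.R304.GR (vt psi vt_cont exp_vt)
open Pool.Agent.TH612.GS (z PN zN z_cont PN_cont)

noncomputable section

lemma sum_sqrt (N : ℕ) : ∑ n ∈ Finset.Icc 1 N, (√(n : ℝ))⁻¹ ≤ 2 * √(N : ℝ) := by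
  induction N with
  | zero => simp
  | succ N ih =>
    rw [Finset.sum_Icc_succ_top (by omega)]
    have h0 : (0 : ℝ) ≤ N := Nat.cast_nonneg N
    have h1 : 0 < √((N + 1 : ℕ) : ℝ) := Real.sqrt_pos.2 (by push_cast; linarith)
    have h2 : √((N + 1 : ℕ) : ℝ) ^ 2 = N + 1 := by rw [Real.sq_sqrt (by positivity)]; push_cast; ring
    have h3 : √(N : ℝ) ^ 2 = N := Real.sq_sqrt h0
    have h4 : 0 ≤ √(N : ℝ) := Real.sqrt_nonneg _
    have h5 : √(N : ℝ) ≤ √((N + 1 : ℕ) : ℝ) := Real.sqrt_le_sqrt (by push_cast; linarith)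
    have h6 : (√((N + 1 : ℕ) : ℝ))⁻¹ ≤ 2 * (√((N + 1 : ℕ) : ℝ) - √(N : ℝ)) := by
      rw [inv_le_iff_one_le_mul₀ h1]
      nlinarith
    linarith

lemma term_eq (n : ℕ) (hn : 1 ≤ n) (t l : ℝ) :
    phase t * ((n : ℂ) ^ (-(1 / 2 + I * t) : ℂ)) * cexp (I * ((t * l : ℝ) : ℂ)) =
      (((√(n : ℝ))⁻¹ : ℝ) : ℂ) * cexp (I * ((vt t - (Real.log n - l) * t : ℝ) : ℂ)) := by
  have hn0 : (0 : ℝ) < n := by exact_mod_cast hn
  have hnC : (n : ℂ) ≠ 0 := by exact_mod_cast hn0.ne'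
  have h1 : (n : ℂ) ^ (-(1 / 2 + I * t) : ℂ) = (((√(n : ℝ))⁻¹ : ℝ) : ℂ) * cexp (-(I * t * Real.log n)) := by
    have h2 : (n : ℂ) ^ (-(1 / 2 : ℂ)) = (((√(n : ℝ))⁻¹ : ℝ) : ℂ) := by
      rw [Real.sqrt_eq_rpow, ← Real.rpow_neg hn0.le]
      rw [Complex.ofReal_cpow hn0.le]
      push_cast
      rfl
    rw [← h2, neg_add, Complex.cpow_add _ _ hnC]
    congr 1
    rw [Complex.cpow_def_of_ne_zero hnC, ← Complex.ofReal_natCast, ← Complex.ofReal_log hn0.le]
    congr 1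
    ring
  rw [h1, ← exp_vt]
  have e : cexp (I * ((vt t - (Real.log n - l) * t : ℝ) : ℂ)) =
      cexp (I * (vt t : ℂ)) * cexp (-(I * t * Real.log n)) * cexp (I * ((t * l : ℝ) : ℂ)) := by
    rw [← Complex.exp_add, ← Complex.exp_add]
    congr 1
    push_cast
    ring
  rw [e]
  ring

theorem tm (hJ : S_J) : S_TM := by
  obtain ⟨C, hC, hJ⟩ := hJ
  refine ⟨2 * C * Real.exp (C / 2) + 3 * C + 6, by positivity, fun a x T l hT haT hax hxT hl => ?_⟩
  have hT0 : (0 : ℝ) < T := by linarith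
  have hT1 : (1 : ℝ) ≤ T := by linarith
  have ha1 : 1 ≤ a := le_trans (Real.one_le_rpow hT1 (by norm_num)) haT
  have haT' : a ≤ T := hax.trans hxT
  obtain ⟨X, hX⟩ : ∃ X : ℕ, X = ⌈T⌉₊ := ⟨_, rfl⟩
  have hXl : T ≤ X := by rw [hX]; exact Nat.le_ceil _
  have hXu : (X : ℝ) ≤ 2 * T := by
    have := Nat.ceil_lt_add_one hT0.le
    rw [← hX] at this
    linarith
  have hX0 : (0 : ℝ) < X := by linarith
  have hX1 : 1 ≤ X := by
    have : 0 < X := by exact_mod_cast hX0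
    omega
  set p := √T with hp
  have hp0 : 0 < p := Real.sqrt_pos.2 hT0
  have hp1 : 1 ≤ p := by rw [hp]; exact Real.one_le_sqrt.2 hT1
  have hp2 : p ^ 2 = T := Real.sq_sqrt hT0.le
  have hXp : √(X : ℝ) ≤ 1.5 * p := by
    apply Real.sqrt_le_iff.2
    refine ⟨by positivity, ?_⟩
    rw [mul_pow, hp2]
    linarith
  have hpX : p ≤ √(X : ℝ) := Real.sqrt_le_sqrt hXl
  -- the approximation
  have happ : ∀ u ∈ Icc a x, ‖z u - PN X u‖ ≤ 6 * T ^ (-(3 / 8) : ℝ) := by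
    intro u hu
    have hu0 : 0 < u := by linarith [hu.1]
    refine (Pool.Agent.TH321.GF.AQ_pw u X hX1 hu0 (by linarith [hu.2])).trans ?_
    have e1 : T ^ (1 / 2 : ℝ) = p := by rw [hp, Real.sqrt_eq_rpow]
    have h1 : 3 * √(X : ℝ) / (1 + u) ≤ 4.5 * T ^ (-(3 / 8) : ℝ) := by
      have hTa : 0 < T ^ (7 / 8 : ℝ) := Real.rpow_pos_of_pos hT0 _
      rw [div_le_iff₀ (by linarith)]
      have h2 : T ^ (-(3 / 8) : ℝ) * T ^ (7 / 8 : ℝ) = p := by
        rw [← Real.rpow_add hT0, ← e1]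
        norm_num
      have h3 : 0 < T ^ (-(3 / 8) : ℝ) := Real.rpow_pos_of_pos hT0 _
      calc 3 * √(X : ℝ) ≤ 3 * (1.5 * p) := by linarith
        _ = 4.5 * (T ^ (-(3 / 8) : ℝ) * T ^ (7 / 8 : ℝ)) := by rw [h2]; ring
        _ ≤ 4.5 * (T ^ (-(3 / 8) : ℝ) * (1 + u)) := by
            have : T ^ (7 / 8 : ℝ) ≤ 1 + u := by linarith [hu.1]
            gcongr
        _ = _ := by ring
    have h2 : 3 / (2 * √(X : ℝ)) ≤ 1.5 * T ^ (-(3 / 8) : ℝ) := by
      have h3 : T ^ (-(1 / 2) : ℝ) ≤ T ^ (-(3 / 8) : ℝ) :=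
        Real.rpow_le_rpow_of_exponent_le hT1 (by norm_num)
      have h4 : T ^ (-(1 / 2) : ℝ) = p⁻¹ := by rw [Real.rpow_neg hT0.le, e1]
      calc 3 / (2 * √(X : ℝ)) ≤ 3 / (2 * p) := by gcongr
        _ = 1.5 * p⁻¹ := by field_simp; norm_num
        _ ≤ _ := by rw [← h4]; gcongr
    linarith
  -- splitting
  have hE : Continuous fun t : ℝ => cexp (I * ((t * l : ℝ) : ℂ)) := by fun_prop
  have hc1 : Continuous fun t : ℝ => phase t * (z t - PN X t) * cexp (I * ((t * l : ℝ) : ℂ)) :=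
    (phase_cont.mul (z_cont.sub (PN_cont X))).mul hE
  have hc2 : Continuous fun t : ℝ => phase t * PN X t * cexp (I * ((t * l : ℝ) : ℂ)) :=
    (phase_cont.mul (PN_cont X)).mul hE
  have hZ : ∀ t : ℝ, Z t * cexp (I * ((t * l : ℝ) : ℂ)) = phase t * (z t - PN X t) * cexp (I * ((t * l : ℝ) : ℂ)) +
      phase t * PN X t * cexp (I * ((t * l : ℝ) : ℂ)) := by
    intro t
    unfold Z z
    ring
  have hsplit : ∫ t in a..x, Z t * cexp (I * ((t * l : ℝ) : ℂ)) =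
      (∫ t in a..x, phase t * (z t - PN X t) * cexp (I * ((t * l : ℝ) : ℂ))) +
      ∫ t in a..x, phase t * PN X t * cexp (I * ((t * l : ℝ) : ℂ)) := by
    rw [← intervalIntegral.integral_add (hc1.intervalIntegrable _ _) (hc2.intervalIntegrable _ _)]
    exact intervalIntegral.integral_congr fun t _ => hZ t
  have hph : ∀ t : ℝ, ‖phase t‖ = 1 := by
    intro t
    rw [← exp_vt, mul_comm, Complex.norm_exp_ofReal_mul_I]
  have hb1 : ‖∫ t in a..x, phase t * (z t - PN X t) * cexp (I * ((t * l : ℝ) : ℂ))‖ ≤ 6 * T ^ (25 / 32 : ℝ) := by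
    have h1 : ∀ u ∈ Set.uIoc a x, ‖phase u * (z u - PN X u) * cexp (I * ((u * l : ℝ) : ℂ))‖ ≤
        6 * T ^ (-(3 / 8) : ℝ) := by
      intro u hu
      rw [uIoc_of_le hax] at hu
      rw [norm_mul, norm_mul, hph, one_mul, mul_comm I, Complex.norm_exp_ofReal_mul_I, mul_one]
      exact happ u ⟨hu.1.le, hu.2⟩
    refine (intervalIntegral.norm_integral_le_of_norm_le_const h1).trans ?_
    rw [abs_of_nonneg (by linarith)]
    have h2 : 0 < T ^ (-(3 / 8) : ℝ) := Real.rpow_pos_of_pos hT0 _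
    calc 6 * T ^ (-(3 / 8) : ℝ) * (x - a) ≤ 6 * T ^ (-(3 / 8) : ℝ) * T := by
          gcongr
          linarith
      _ = 6 * T ^ (5 / 8 : ℝ) := by
          have : T ^ (-(3 / 8) : ℝ) * T = T ^ (5 / 8 : ℝ) := by
            nth_rw 2 [← Real.rpow_one T]
            rw [← Real.rpow_add hT0]
            norm_num
          rw [mul_assoc, this]
      _ ≤ _ := by
          have : T ^ (5 / 8 : ℝ) ≤ T ^ (25 / 32 : ℝ) := Real.rpow_le_rpow_of_exponent_le hT1 (by norm_num)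
          linarith
  -- the sum
  have hsum : ∫ t in a..x, phase t * PN X t * cexp (I * ((t * l : ℝ) : ℂ)) =
      ∑ n ∈ Finset.Icc 1 X, (((√(n : ℝ))⁻¹ : ℝ) : ℂ) *
        ∫ t in a..x, cexp (I * ((vt t - (Real.log n - l) * t : ℝ) : ℂ)) := by
    have h1 : ∀ n ∈ Finset.Icc 1 X, IntervalIntegrable (fun t : ℝ => (((√(n : ℝ))⁻¹ : ℝ) : ℂ) *
        cexp (I * ((vt t - (Real.log n - l) * t : ℝ) : ℂ))) volume a x := by
      intro n _
      have : Continuous fun t : ℝ => (((√(n : ℝ))⁻¹ : ℝ) : ℂ) *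
          cexp (I * ((vt t - (Real.log n - l) * t : ℝ) : ℂ)) := by
        have hv := vt_cont
        fun_prop
      exact this.intervalIntegrable _ _
    calc ∫ t in a..x, phase t * PN X t * cexp (I * ((t * l : ℝ) : ℂ))
        = ∫ t in a..x, ∑ n ∈ Finset.Icc 1 X, (((√(n : ℝ))⁻¹ : ℝ) : ℂ) *
          cexp (I * ((vt t - (Real.log n - l) * t : ℝ) : ℂ)) := by
          refine intervalIntegral.integral_congr fun t _ => ?_
          simp only [PN, zN]
          rw [Finset.mul_sum, Finset.sum_mul]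
          exact Finset.sum_congr rfl fun n hn => term_eq n (Finset.mem_Icc.1 hn).1 t l
      _ = _ := by
          rw [intervalIntegral.integral_finsetSum h1]
          exact Finset.sum_congr rfl fun n _ => intervalIntegral.integral_const_mul _ _
  obtain ⟨K, hK⟩ : ∃ K : ℝ, K = Real.exp C * T ^ (9 / 16 : ℝ) := ⟨_, rfl⟩
  have hK0 : 0 < K := by rw [hK]; positivity
  have hterm : ∀ n ∈ Finset.Icc 1 X, ‖(((√(n : ℝ))⁻¹ : ℝ) : ℂ) *
      ∫ t in a..x, cexp (I * ((vt t - (Real.log n - l) * t : ℝ) : ℂ))‖ ≤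
      (if n ≤ ⌊K⌋₊ then C * p * (√(n : ℝ))⁻¹ else 0) + C * (√(n : ℝ))⁻¹ := by
    intro n hn
    have hn1 := (Finset.mem_Icc.1 hn).1
    have hn0 : (0 : ℝ) < n := by exact_mod_cast hn1
    have hs : 0 ≤ (√(n : ℝ))⁻¹ := by positivity
    rw [norm_mul, Complex.norm_real, Real.norm_of_nonneg hs]
    obtain ⟨j1, j2⟩ := hJ a x T (Real.log n - l) ha1 hax hxT
    split_ifs with h
    · calc _ ≤ (√(n : ℝ))⁻¹ * (C * p) := by gcongr
        _ ≤ C * p * (√(n : ℝ))⁻¹ + C * (√(n : ℝ))⁻¹ := by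
            have : 0 ≤ C * (√(n : ℝ))⁻¹ := by positivity
            linarith
    · have hn2 : K < n := by
        rw [not_le] at h
        exact (Nat.floor_lt hK0.le).1 h
      have h3 : Real.log K ≤ Real.log n := Real.log_le_log hK0 hn2.le
      have h4 : Real.log K = C + 9 / 16 * Real.log T := by
        rw [hK, Real.log_mul (Real.exp_pos C).ne' (Real.rpow_pos_of_pos hT0 _).ne', Real.log_exp,
          Real.log_rpow hT0]
      have h5 := (abs_le.1 hl).2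
      have h6 := j2 (by linarith)
      calc _ ≤ (√(n : ℝ))⁻¹ * C := by gcongr
        _ = _ := by ring
  have hb2 : ‖∫ t in a..x, phase t * PN X t * cexp (I * ((t * l : ℝ) : ℂ))‖ ≤
      2 * C * Real.exp (C / 2) * T ^ (25 / 32 : ℝ) + 3 * C * T ^ (25 / 32 : ℝ) := by
    rw [hsum]
    refine (norm_sum_le _ _).trans ((Finset.sum_le_sum hterm).trans ?_)
    rw [Finset.sum_add_distrib, ← Finset.sum_filter, ← Finset.mul_sum, ← Finset.mul_sum]
    have e1 : ∑ n ∈ (Finset.Icc 1 X).filter (fun n => n ≤ ⌊K⌋₊), (√(n : ℝ))⁻¹ ≤ 2 * √K := by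
      calc ∑ n ∈ (Finset.Icc 1 X).filter (fun n => n ≤ ⌊K⌋₊), (√(n : ℝ))⁻¹
          ≤ ∑ n ∈ Finset.Icc 1 ⌊K⌋₊, (√(n : ℝ))⁻¹ := by
            refine Finset.sum_le_sum_of_subset_of_nonneg ?_ fun _ _ _ => by positivity
            intro n hn
            rw [Finset.mem_filter, Finset.mem_Icc] at hn
            exact Finset.mem_Icc.2 ⟨hn.1.1, hn.2⟩
        _ ≤ 2 * √((⌊K⌋₊ : ℕ) : ℝ) := sum_sqrt _
        _ ≤ 2 * √K := by
            have := Nat.floor_le hK0.le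
            gcongr
    have e2 : √K = Real.exp (C / 2) * T ^ (9 / 32 : ℝ) := by
      rw [hK, Real.sqrt_mul (Real.exp_pos C).le, ← Real.exp_half, Real.sqrt_eq_rpow, ← Real.rpow_mul hT0.le]
      norm_num
    have e3 : p * T ^ (9 / 32 : ℝ) = T ^ (25 / 32 : ℝ) := by
      rw [hp, Real.sqrt_eq_rpow, ← Real.rpow_add hT0]
      norm_num
    have e4 : p ≤ T ^ (25 / 32 : ℝ) := by
      rw [hp, Real.sqrt_eq_rpow]
      exact Real.rpow_le_rpow_of_exponent_le hT1 (by norm_num)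
    have e5 := sum_sqrt X
    calc C * p * ∑ n ∈ (Finset.Icc 1 X).filter (fun n => n ≤ ⌊K⌋₊), (√(n : ℝ))⁻¹ +
          C * ∑ n ∈ Finset.Icc 1 X, (√(n : ℝ))⁻¹
        ≤ C * p * (2 * √K) + C * (2 * (1.5 * p)) := by
          gcongr
          linarith
      _ = 2 * C * Real.exp (C / 2) * (p * T ^ (9 / 32 : ℝ)) + 3 * C * p := by rw [e2]; ring
      _ ≤ _ := by
          rw [e3]
          gcongr
  rw [hsplit]
  refine (norm_add_le _ _).trans ((add_le_add hb1 hb2).trans (le_of_eq ?_))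
  ring

end

end Pool.Agent.T9h29.HC
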